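import Pool.Agent.H4.NcbH

set_option autoImplicit false

namespace Pool.Agent.Results.MP_2d55ae_co.Yes

/-- Bohr sets -/
def Bohr {G : Type} [AddCommGroup G] {k : ℕ} (χ : Fin k → AddChar G Circle) (η : ℝ) : Set G :=
  {g | ∀ j, ‖((χ j g : Circle) : ℂ) - 1‖ < η}

theorem result (d r M : ℕ) (hd : 3 ≤ d) :
    ∃ (k : ℕ) (η : ℝ), 0 < η ∧ ∀ (G : Type) [AddCommGroup G] (φ : Fin d → G →+ G),
      (∀ j, (φ j).range.index ≠ 0 ∧ (φ j).range.index ≤ M) →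
      (∃ S : Finset (Fin d), S.Nonempty ∧ ∑ j ∈ S, φ j = 0) →
      ∀ A : Fin r → Set G, (∀ g, ∃! i, g ∈ A i) → ∃ i, ∃ χ : Fin k → AddChar G Circle,
        Bohr χ η ⊆ {g | ∃ a : Fin d → G, (∀ j, a j ∈ A i) ∧ g = ∑ j, φ j (a j)} := by
  obtain ⟨k, η, e, h⟩ := Pool.Agent.H4.Ncb.part (Fin d) (by simpa using hd) M r
  exact ⟨k, η, e, fun G _ φ a b A c => h G φ a b A fun g => (c g).exists⟩

end Pool.Agent.Results.MP_2d55ae_co.Yes
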